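import Pool.Agent.MP_9fbb57_co.Steal

namespace Pool.Agent.Results.MP_9fbb57_co.OffAll

open Pool.Agent.MP_9fbb57_co.Off

/-- In the reverse clique game where one player avoids a clique of size `t` and the other one a
clique of smaller size `s`, the player who avoids the larger clique wins, whoever starts, on all
boards from some size `M` on, where `M` is at most the diagonal Ramsey number of `s` plus one and
strictly below the Ramsey number of the pair. -/
theorem result (s t : ℕ) (hs : 2 ≤ s) (ht : s < t) (h4 : 4 ≤ t) :
    ∃ M, M ≤ R s s + 1 ∧ M < R s t ∧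
      ∀ N, M ≤ N → Wins (N := N) t s ∅ ∅ true ∧ Wins (N := N) t s ∅ ∅ false :=
  ⟨R s s + 1, le_rfl, R_add_one_lt hs ht h4, fun _ hN => steal_wins hs ht hN⟩

end Pool.Agent.Results.MP_9fbb57_co.OffAll
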