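import Pool.Agent.Mg.F9fbb57.G114d8a

namespace Pool.Agent.Results.MP_9fbb57_co.OffOrder

open Pool.Agent.MP_9fbb57_co.Off

/-- The order of the reverse win number when the larger avoided clique has at least `2 s + 20`
vertices, where `s` is the size of the smaller one. -/
theorem result (a b : ℕ) (h1 : 400 ≤ min a b) (h2 : 2 * min a b + 20 ≤ max a b) :
    ((min a b : ℕ) : ℝ) * Real.sqrt 2 ^ min a b / 16 ≤ (w a b : ℝ) ∧
      (w a b : ℝ) ≤ 128 * ((min a b : ℕ) : ℝ) * Real.sqrt 2 ^ min a b :=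
  order_real h1 h2

end Pool.Agent.Results.MP_9fbb57_co.OffOrder
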