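import Pool.Agent.Mg.F9fbb57a.Ge21d12

/-!
Reverse game of a clique `K_q` with `n` pendant edges at one vertex: the win number is about
`2 (n + q - 1)` and the Ramsey number about `(q - 1) (n + q - 1)`.
-/

namespace Pool.Agent.Results.MP_9fbb57_co.PendantClique

open Pool.Agent.MP_9fbb57_co.Gen

theorem result (q n r : ℕ) (c : Fin q) (hq : 3 ≤ q)
    (hr : IsRamseyNumber (⊤ : SimpleGraph (Fin q)) r) :
    ∃ w R : ℕ, IsWinNumber (broom q n c) w ∧ IsRamseyNumber (broom q n c) R ∧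
      2 * ((n + q - 1 : ℕ) : ℝ) -
        √(8 * ((n + q - 1 : ℕ) : ℝ) * Real.log (2 * ((n + q - 1 : ℕ) : ℝ))) ≤ w ∧
      w ≤ max (2 * (n + q - 1)) (6 * r) ∧
      (q - 1) * (n + q - 1) < R ∧ R ≤ (q - 1) * (n + q - 1) + 2 * r :=
  broom_main q n r c hq hr

end Pool.Agent.Results.MP_9fbb57_co.PendantClique
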