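import Pool.Agent.Mg.F9fbb57a.Gc6b108

/-!
Reverse star game: for an odd number `k ≥ 3` of leaves the win number is strictly below the Ramsey
number `2 k`, and it is at least `2 k - sqrt (8 k log (2 k))`.
-/

namespace Pool.Agent.Results.MP_9fbb57_co.StarStrict

open Pool.Agent.MP_9fbb57_co.Gen

theorem result (k : ℕ) (hk : 3 ≤ k) (hodd : Odd k) :
    ∃ w : ℕ, IsWinNumber (completeBipartiteGraph (Fin 1) (Fin k)) w ∧
      IsRamseyNumber (completeBipartiteGraph (Fin 1) (Fin k)) (2 * k) ∧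
      2 * (k : ℝ) - √(8 * k * Real.log (2 * k)) ≤ w ∧ w < 2 * k :=
  star_main k hk hodd

end Pool.Agent.Results.MP_9fbb57_co.StarStrict
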